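import Pool.Agent.Helper14.BSC.Stmts2

/-!
# Module ZER: from finite values to all values
-/

set_option autoImplicit false

namespace Pool.Agent.Helper14.BSC

open Polynomial

theorem zer_root {K L : Type} [Field K] [Field L] (σ : K →+* L) (F : K[X]) (b : K) (ξ : L)
    (h0 : (F.map σ).eval ξ = 0) (h1 : ξ - σ b ≠ 0) :
    (((X * (F.comp (X + C b)).reverse : K[X])).map σ).eval (ξ - σ b)⁻¹ = 0 := by
  rw [Polynomial.map_mul, eval_mul]
  apply mul_eq_zero_of_right
  rw [eval_map]
  letI : Invertible (ξ - σ b) := invertibleOfNonzero h1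
  have h2 := (eval₂_reverse_eq_zero_iff σ (ξ - σ b) (F.comp (X + C b))).2 (by
    rw [← eval_map, map_comp, Polynomial.map_add, map_X, map_C, eval_comp, eval_add, eval_X, eval_C,
      sub_add_cancel]
    exact h0)
  rwa [invOf_eq_inv] at h2

theorem st_ZER : ST_ZER := by
  intro k Ω _ _ _ _ _ D x F _ hF hroot
  -- a point which is not a root
  obtain ⟨b, hb⟩ : ∃ b : k, F.eval b ≠ 0 := by
    by_contra hcon
    apply hF
    apply Polynomial.funext
    intro r
    rw [eval_zero]
    by_contra hr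
    exact hcon ⟨r, hr⟩
  have hc : F.comp (X + C b) ≠ 0 := by
    intro h
    apply hb
    have h1 : (F.comp (X + C b)).eval 0 = F.eval b := by
      rw [eval_comp, eval_add, eval_X, eval_C, zero_add]
    rw [← h1, h, eval_zero]
  refine ⟨b, X * (F.comp (X + C b)).reverse, ?_, ?_⟩
  · apply mul_ne_zero X_ne_zero
    rw [Ne, reverse_eq_zero]
    exact hc
  intro p _ σ hσ P
  obtain ⟨hbC, hbφ⟩ := P.base b
  by_cases hx : x ∈ P.C
  · have h0 := hroot p σ hσ P hx
    have hne : P.φ ⟨x, hx⟩ - σ b ≠ 0 := by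
      intro h
      rw [sub_eq_zero] at h
      rw [h, eval_map, eval₂_hom, map_eq_zero] at h0
      exact hb h0
    have hy : x - algebraMap k (LL D) b ∈ P.C := sub_mem hx hbC
    have hφy : P.φ ⟨x - algebraMap k (LL D) b, hy⟩ = P.φ ⟨x, hx⟩ - σ b := by
      rw [← hbφ, ← map_sub]
      rfl
    have hker := (P.ker ⟨x - algebraMap k (LL D) b, hy⟩).not.1 (by rw [hφy]; exact hne)
    rw [not_or, not_not] at hker
    obtain ⟨hy0, hyi⟩ := hker
    simp only at hy0 hyi
    refine ⟨hyi, ?_⟩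
    have hφi : P.φ ⟨(x - algebraMap k (LL D) b)⁻¹, hyi⟩ = (P.φ ⟨x, hx⟩ - σ b)⁻¹ := by
      apply eq_inv_of_mul_eq_one_left
      rw [← hφy, ← map_mul]
      have : (⟨(x - algebraMap k (LL D) b)⁻¹, hyi⟩ : P.C) * ⟨x - algebraMap k (LL D) b, hy⟩ = 1 := by
        apply Subtype.ext
        exact inv_mul_cancel₀ hy0
      rw [this, map_one]
    rw [hφi]
    exact zer_root σ F b _ h0 hne
  · have hy : x - algebraMap k (LL D) b ∉ P.C := by
      intro h
      apply hx
      have := add_mem h hbC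
      rwa [sub_add_cancel] at this
    have hyi : (x - algebraMap k (LL D) b)⁻¹ ∈ P.C :=
      (P.C.mem_or_inv_mem (x - algebraMap k (LL D) b)).resolve_left hy
    refine ⟨hyi, ?_⟩
    have h0 : P.φ ⟨(x - algebraMap k (LL D) b)⁻¹, hyi⟩ = 0 := by
      rw [P.ker]
      right
      rw [inv_inv]
      exact hy
    rw [h0, Polynomial.map_mul, eval_mul, map_X, eval_X, zero_mul]

end Pool.Agent.Helper14.BSC
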